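import Mathlib

namespace Pool.Agent.Work.MP_3489b6_co

variable {V : Type} [Fintype V] (G : SimpleGraph V) [DecidableRel G.Adj]

/-- A magnetic potential: unit complex numbers on the oriented edges with
`σ y x` the conjugate of `σ x y` (values on non-edges are irrelevant). -/
def IsMagneticPotential (σ : V → V → ℂ) : Prop :=
  ∀ x y, G.Adj x y → ‖σ x y‖ = 1 ∧ σ y x = (starRingEnd ℂ) (σ x y)

/-- The magnetic Laplacian `(Δ^σ f)(x) = ∑_{y ∼ x} (f x - σ x y * f y)`. -/
noncomputable def magLap (σ : V → V → ℂ) (f : V → ℂ) (x : V) : ℂ :=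
  ∑ y ∈ G.neighborFinset x, (f x - σ x y * f y)

/-- The smallest eigenvalue of the magnetic Laplacian (a Hermitian operator, so that all its
eigenvalues are real). -/
noncomputable def lambdaOne (σ : V → V → ℂ) : ℝ :=
  sInf {t : ℝ | ∃ f : V → ℂ, f ≠ 0 ∧ ∀ x, magLap G σ f x = (t : ℂ) * f x}

/-- The magneto-spectral height. -/
noncomputable def nu : ℝ :=
  sSup {t : ℝ | ∃ σ : V → V → ℂ, IsMagneticPotential G σ ∧ t = lambdaOne G σ}

end Pool.Agent.Work.MP_3489b6_co
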