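import Pool.Agent.Work.MP_3489b6_co.Defs
import Pool.Agent.Lib.Interlace.Matching

open Matrix Pool.Agent.Lib.Interlace

namespace Pool.Agent.Work.MP_3489b6_co

variable {V : Type} [Fintype V] (G : SimpleGraph V) [DecidableRel G.Adj]

lemma abs_eigen_le {σ : V → V → ℂ} (hσ : IsMagneticPotential G σ) {t : ℝ} {f : V → ℂ} (hf : f ≠ 0)
    (h : ∀ x, magLap G σ f x = (t : ℂ) * f x) : |t| ≤ 2 * Fintype.card V := by
  obtain ⟨x0, hx0⟩ := Function.ne_iff.1 hf
  obtain ⟨x, -, hx⟩ := Finset.exists_max_image Finset.univ (fun x => ‖f x‖) ⟨x0, Finset.mem_univ _⟩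
  have hpos : 0 < ‖f x‖ := lt_of_lt_of_le (norm_pos_iff.2 hx0) (hx x0 (Finset.mem_univ _))
  have h1 : |t| * ‖f x‖ ≤ ∑ y ∈ G.neighborFinset x, 2 * ‖f x‖ := by
    have := congrArg norm (h x)
    rw [norm_mul, Complex.norm_real, Real.norm_eq_abs] at this
    rw [← this]
    refine (norm_sum_le _ _).trans (Finset.sum_le_sum fun y hy => ?_)
    have hadj : G.Adj x y := by simpa using hy
    have := norm_sub_le (f x) (σ x y * f y)
    rw [norm_mul, (hσ x y hadj).1] at this
    have := hx y (Finset.mem_univ _)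
    linarith
  rw [Finset.sum_const, nsmul_eq_mul] at h1
  have h2 : ((G.neighborFinset x).card : ℝ) ≤ Fintype.card V := by
    exact_mod_cast Finset.card_le_univ _
  have h3 : |t| * ‖f x‖ ≤ (2 * Fintype.card V) * ‖f x‖ := by nlinarith
  exact le_of_mul_le_mul_right h3 hpos

lemma bddAbove_lambda :
    BddAbove {t : ℝ | ∃ σ : V → V → ℂ, IsMagneticPotential G σ ∧ t = lambdaOne G σ} := by
  refine ⟨2 * Fintype.card V, ?_⟩
  rintro _ ⟨σ, hσ, rfl⟩
  unfold lambdaOne
  rcases Set.eq_empty_or_nonempty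
    {t : ℝ | ∃ f : V → ℂ, f ≠ 0 ∧ ∀ x, magLap G σ f x = (t : ℂ) * f x} with h | ⟨t, ht⟩
  · rw [h, Real.sInf_empty]; positivity
  · refine csInf_le_of_le ⟨-(2 * Fintype.card V), ?_⟩ ht ?_
    · rintro r ⟨f, hf, h⟩
      exact (abs_le.1 (abs_eigen_le G hσ hf h)).1
    · obtain ⟨f, hf, h⟩ := ht
      exact (abs_le.1 (abs_eigen_le G hσ hf h)).2

theorem main (d : ℕ) (hd : 3 ≤ d) (hG : d ≤ G.minDegree) :
    (d : ℝ) - 2 * √((d : ℝ) - 1) ≤ nu G := by
  classical
  have hd' : (3 : ℝ) ≤ d := by exact_mod_cast hd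
  set s : ℝ := √((d : ℝ) - 1) with hs
  have hss : s ^ 2 = d - 1 := Real.sq_sqrt (by linarith)
  have hs1 : 1 ≤ s := by
    rw [hs]
    exact Real.one_le_sqrt.2 (by linarith)
  have hdeg : ∀ v, (d : ℝ) ≤ G.degree v := fun v => by
    exact_mod_cast hG.trans (G.minDegree_le_degree v)
  have hkey : ∀ v, (G.degree v : ℝ) + (d - 2) ≤ s * ((G.degree v : ℝ) - (d - 2 * s)) := by
    intro v
    have := mul_le_mul_of_nonneg_left (hdeg v) (sub_nonneg.2 hs1)
    nlinarith
  obtain ⟨B, hB, h0, h1, hdet⟩ := exists_graph_signing G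
    (fun v => (G.degree v : ℝ) - (d - 2 * s)) s (by linarith)
    (fun v => by have := hkey v; linarith) (fun v => by have := hkey v; linarith)
  let σ : V → V → ℂ := fun x y => - B x y
  have hσ : IsMagneticPotential G σ := by
    intro x y hxy
    refine ⟨?_, ?_⟩
    · rcases h1 x y hxy with h | h <;> simp [σ, h]
    · simp only [σ, map_neg]
      rw [← hB.apply y x]
      rfl
  let M : Matrix V V ℂ := Matrix.diagonal (fun v => ((G.degree v : ℝ) : ℂ)) + B
  have hM : M.IsHermitian := by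
    apply IsHermitian.add _ hB
    rw [isHermitian_diagonal_iff]
    intro i
    simp [IsSelfAdjoint]
  have hlap : ∀ f x, magLap G σ f x = (M *ᵥ f) x := by
    intro f x
    simp only [M, add_mulVec, Pi.add_apply, mulVec_diagonal, magLap, σ]
    rw [Finset.sum_sub_distrib, Finset.sum_const, nsmul_eq_mul]
    have : (B *ᵥ f) x = ∑ y ∈ G.neighborFinset x, B x y * f y := by
      simp only [Matrix.mulVec, dotProduct]
      symm
      apply Finset.sum_subset (Finset.subset_univ _)
      intro y _ hy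
      rw [h0 x y (by simpa using hy), zero_mul]
    rw [this]
    simp
  have hne : Nonempty V := by
    by_contra hV
    rw [not_nonempty_iff] at hV
    rw [G.minDegree_of_subsingleton] at hG
    omega
  obtain ⟨j⟩ := hne
  have hlow : (d : ℝ) - 2 * s ≤ lambdaOne G σ := by
    apply le_csInf
    · refine ⟨hM.eigenvalues j, ⇑(hM.eigenvectorBasis j), ?_, fun x => ?_⟩
      · intro h
        apply (hM.eigenvectorBasis).orthonormal.ne_zero j
        ext i
        exact congrFun h i
      · rw [hlap, hM.mulVec_eigenvectorBasis]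
        simp
    · rintro t ⟨f, hf, h⟩
      by_contra hlt
      push Not at hlt
      apply hdet (d - 2 * s - t) (by linarith)
      apply exists_mulVec_eq_zero_iff.1
      refine ⟨f, hf, ?_⟩
      ext x
      have := h x
      rw [hlap] at this
      simp only [M, add_mulVec, Pi.add_apply, mulVec_diagonal] at this ⊢
      push_cast at this ⊢
      simp only [Pi.zero_apply]
      linear_combination this
  exact hlow.trans (le_csSup (bddAbove_lambda G) ⟨σ, hσ, rfl⟩)

lemma bound_pos (d : ℕ) (hd : 3 ≤ d) : 0 < (d : ℝ) - 2 * √((d : ℝ) - 1) := by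
  have hd' : (3 : ℝ) ≤ d := by exact_mod_cast hd
  have : √((d : ℝ) - 1) < d / 2 := by
    rw [Real.sqrt_lt' (by linarith)]
    nlinarith
  linarith

end Pool.Agent.Work.MP_3489b6_co
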